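import Pool.Agent.Helper97.Nag.Goals2
import Pool.Agent.Helper35.Nag.TRN
import Pool.Agent.Helper35.Nag.TRP

/-!
Packet NAG1-TRS: the count of the long rows of the triangle, closed case.
-/

set_option autoImplicit false

noncomputable section

namespace Pool.Agent.Helper72.Nag.TRS

open Pool.Agent.Helper97.Nag Pool.Agent.Helper35.Nag

theorem t : S_TRS := by
  intro b k d M hk hb hkd hM
  have hd : 1 ≤ d := by
    rcases Nat.eq_zero_or_pos d with rfl | h
    · rw [mul_zero] at hkd
      omega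
    · exact h
  have hk' : (4 : ℝ) ≤ k := by exact_mod_cast hk
  have hd' : (1 : ℝ) ≤ d := by exact_mod_cast hd
  have hpos : (0 : ℝ) < 1 / ((k : ℝ) * d) := by positivity
  obtain ⟨r, hr, h4, h5⟩ := exists_irrational_btwn
    (show 3 * (k : ℝ) - 1 / ((k : ℝ) * d) < 3 * (k : ℝ) by linarith)
  -- `r = rho + 9 = 3 k - ε`
  obtain ⟨ε, hε⟩ : ∃ ε : ℝ, ε = 3 * (k : ℝ) - r := ⟨_, rfl⟩
  have hrε : r = 3 * k - ε := by rw [hε]; ring
  have hε0 : 0 < ε := by rw [hε]; linarith
  have hε1 : ε * ((k : ℝ) * d) < 1 := by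
    have : ε < 1 / ((k : ℝ) * d) := by rw [hε]; linarith
    rwa [lt_div_iff₀ (by positivity)] at this
  have hε2 : ε < 1 := by
    have h1 : ε * 1 ≤ ε * ((k : ℝ) * d) := by
      apply mul_le_mul_of_nonneg_left _ hε0.le
      nlinarith
    linarith
  have h0 : 0 ≤ r - 9 := by rw [hrε]; linarith
  refine ⟨r - 9, h0, fun j hj n => TRP.generic hr d j hj n, ?_⟩
  obtain ⟨rho, hrho⟩ : ∃ rho : ℝ, rho = r - 9 := ⟨_, rfl⟩
  rw [← hrho]
  rw [← hrho] at h0
  have hc : rho + 9 = 3 * k - ε := by rw [hrho, hrε]; ring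
  have hc' : rho + 9 < 3 * k := by rw [hc]; linarith
  intro S hS s hs
  obtain rfl | h2 := hs.eq_or_lt
  · -- one point in the row
    have hB : ∑ l, (M l + 1 - 1) = ∑ l, M l := by simp
    rw [hB]
    have hsub : lnv S 1 ⊆ Finset.Ico (0 : ℤ) ((∑ l, M l : ℕ) : ℤ) := by
      intro X hX
      unfold lnv at hX
      rw [Finset.mem_filter, Finset.mem_image] at hX
      obtain ⟨⟨q, hq, rfl⟩, -⟩ := hX
      obtain ⟨j, hj, hI⟩ := hS q hq
      rw [Finset.mem_Ico]
      rcases hI with ⟨hjd, h1, h3⟩ | ⟨hjd, h1⟩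
      · have hjd' : (3 : ℝ) * j < d := by exact_mod_cast hjd
        have hv : 0 < (d : ℝ) / 3 - j := by linarith
        constructor
        · have h4 : (0 : ℝ) < (q.2 : ℝ) := lt_of_le_of_lt (mul_nonneg h0 hv.le) h1
          have h5 : (0 : ℤ) < q.2 := by exact_mod_cast h4
          exact h5.le
        · have h4 : (q.2 : ℝ) < ((∑ l, M l : ℕ) : ℝ) := by
            have h5 : (rho + 9) * ((d : ℝ) / 3 - j) ≤ 3 * k * ((d : ℝ) / 3 - j) :=
              mul_le_mul_of_nonneg_right hc'.le hv.le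
            have h6 : 3 * (k : ℝ) * ((d : ℝ) / 3 - j) ≤ k * d := by
              have : (0 : ℝ) ≤ (k : ℝ) * j := by positivity
              nlinarith
            rw [← hkd]
            push_cast
            linarith
          exact_mod_cast h4
      · rw [h1]
        constructor
        · exact le_refl _
        · exact_mod_cast hM
    calc (lnv S 1).card ≤ (Finset.Ico (0 : ℤ) ((∑ l, M l : ℕ) : ℤ)).card :=
          Finset.card_le_card hsub
      _ = ∑ l, M l := by
        rw [Int.card_Ico, sub_zero, Int.toNat_natCast]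
  · -- at least two points
    obtain ⟨σ, rfl⟩ : ∃ σ : ℕ, s = σ + 1 := ⟨s - 1, by omega⟩
    have hσ : 1 ≤ σ := by omega
    have hB : ((k * d : ℕ) : ℤ) - σ * k ^ 2 ≤ ((∑ l, (M l + 1 - (σ + 1)) : ℕ) : ℤ) := by
      rw [hkd, Nat.cast_sum, Nat.cast_sum]
      have h3 : ∀ l : Fin b, ((M l : ℤ) - σ) ≤ ((M l + 1 - (σ + 1) : ℕ) : ℤ) := by
        intro l
        omega
      calc ∑ l, (M l : ℤ) - σ * k ^ 2 = ∑ l : Fin b, ((M l : ℤ) - σ) := by
            rw [Finset.sum_sub_distrib]
            simp only [Finset.sum_const, Finset.card_univ, Fintype.card_fin, nsmul_eq_mul]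
            have hbk : (b : ℤ) = (k : ℤ) ^ 2 := by exact_mod_cast hb
            linear_combination (σ : ℤ) * hbk
        _ ≤ ∑ l, ((M l + 1 - (σ + 1) : ℕ) : ℤ) := Finset.sum_le_sum fun l _ => h3 l
    have hsub : lnv S (σ + 1) ⊆ Finset.Ico ((σ : ℤ) * k * (k - 3)) (k * (d - 3 * σ)) := by
      intro X hX
      unfold lnv at hX
      rw [Finset.mem_filter, Finset.mem_image] at hX
      obtain ⟨-, hcard⟩ := hX
      have hinj : Set.InjOn (Prod.fst : ℤ × ℤ → ℤ) (S.filter fun q => q.2 = X) := by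
        intro p hp q hq hpq
        rw [Finset.mem_coe, Finset.mem_filter] at hp hq
        exact Prod.ext hpq (hp.2.trans hq.2.symm)
      have hcard' : σ + 1 ≤ ((S.filter fun q => q.2 = X).image Prod.fst).card := by
        rw [Finset.card_image_of_injOn hinj]
        exact hcard
      obtain ⟨x, hx, y, hy, hxy⟩ := TRN.spread hcard'
      rw [Finset.mem_image] at hx hy
      obtain ⟨p, hp, rfl⟩ := hx
      obtain ⟨q, hq, rfl⟩ := hy
      rw [Finset.mem_filter] at hp hq
      obtain ⟨hpS, hpX⟩ := hp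
      obtain ⟨hqS, hqX⟩ := hq
      obtain ⟨i, hi, hIp⟩ := hS p hpS
      obtain ⟨j, hj, hIq⟩ := hS q hqS
      rw [hpX] at hIp
      rw [hqX] at hIq
      rw [hi, hj] at hxy
      have hxy' : (i : ℝ) + σ ≤ j := by exact_mod_cast hxy
      have hσ' : (1 : ℝ) ≤ σ := by exact_mod_cast hσ
      have hi0 : (0 : ℝ) ≤ i := Nat.cast_nonneg i
      have hjd : (3 : ℝ) * j ≤ d := by
        rcases hIq with ⟨h3, -, -⟩ | ⟨h3, -⟩
        · exact_mod_cast h3.le
        · exact_mod_cast h3.le
      have hp1 : rho * ((d : ℝ) / 3 - i) < X := by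
        rcases hIp with ⟨h3, h4, -⟩ | ⟨h3, -⟩
        · exact h4
        · exfalso
          have h4 : (3 : ℝ) * i = d := by exact_mod_cast h3
          linarith
      have hX : 0 < (X : ℝ) := by
        refine lt_of_le_of_lt (mul_nonneg h0 ?_) hp1
        linarith
      have hq1 : (X : ℝ) < (rho + 9) * ((d : ℝ) / 3 - j) := by
        rcases hIq with ⟨-, -, h4⟩ | ⟨-, h4⟩
        · exact h4
        · exfalso
          rw [h4] at hX
          simp at hX
      rw [Finset.mem_Ico]
      constructor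
      · -- lower bound
        have e1 : (rho + 9) * (rho * ((d : ℝ) / 3 - i)) < (rho + 9) * X :=
          mul_lt_mul_of_pos_left hp1 (by linarith)
        have e2 : rho * (X : ℝ) ≤ rho * ((rho + 9) * ((d : ℝ) / 3 - j)) :=
          mul_le_mul_of_nonneg_left hq1.le h0
        have e3 : rho * (rho + 9) * ((i : ℝ) + σ) ≤ rho * (rho + 9) * j :=
          mul_le_mul_of_nonneg_left hxy' (mul_nonneg h0 (by linarith))
        have e4 : σ * (rho * (rho + 9)) < 9 * X := by nlinarith
        have e5 : rho * (rho + 9) = 9 * (k * (k - 3)) - ε * (6 * k - 9) + ε ^ 2 := by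
          have : rho = 3 * k - ε - 9 := by linarith
          rw [this]
          ring
        have e6 : (σ : ℝ) ≤ d := by linarith
        have e7 : ε * ((k : ℝ) * σ) ≤ ε * ((k : ℝ) * d) := by
          apply mul_le_mul_of_nonneg_left _ hε0.le
          apply mul_le_mul_of_nonneg_left e6 (by linarith)
        have e8 : 9 * ((σ : ℝ) * k * (k - 3)) - 9 * (ε * ((k : ℝ) * σ)) ≤ σ * (rho * (rho + 9)) := by
          rw [e5]
          have e9 : 0 ≤ (σ : ℝ) * ε * (3 * k + 9) := by positivity
          have e10 : 0 ≤ (σ : ℝ) * ε ^ 2 := by positivity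
          nlinarith
        have e9 : (((σ : ℤ) * k * (k - 3) - 1 : ℤ) : ℝ) < (X : ℝ) := by
          push_cast
          linarith
        have e10 : (σ : ℤ) * k * (k - 3) - 1 < X := by exact_mod_cast e9
        omega
      · have e1 : (X : ℝ) < (((k : ℤ) * (d - 3 * σ) : ℤ) : ℝ) := by
          have h6 : 0 ≤ (d : ℝ) / 3 - j := by linarith
          have h7 : (rho + 9) * ((d : ℝ) / 3 - j) ≤ 3 * k * ((d : ℝ) / 3 - j) :=
            mul_le_mul_of_nonneg_right hc'.le h6
          have h8 : 3 * (k : ℝ) * ((d : ℝ) / 3 - j) ≤ 3 * k * ((d : ℝ) / 3 - σ) := by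
            apply mul_le_mul_of_nonneg_left _ (by linarith)
            linarith
          push_cast
          linarith
        exact_mod_cast e1
    have hcard := Finset.card_le_card hsub
    rw [Int.card_Ico] at hcard
    have e1 : (k : ℤ) * (d - 3 * σ) - (σ : ℤ) * k * (k - 3) = ((k * d : ℕ) : ℤ) - σ * k ^ 2 := by
      push_cast
      ring
    rw [e1] at hcard
    omega

end Pool.Agent.Helper72.Nag.TRS
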